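import Pool.Agent.K6.H92.PS.Clqk

/-! Counting: degenerate tuples, dense classes, fibres. -/

set_option autoImplicit false

namespace Pool.Agent.K6.H92.PS

open Finset Filter Topology
open Pool.Agent.N646.RG

open Classical in
/-- the tuples with two equal values are few -/
theorem degen (k T M : ℕ) (hM : 1 ≤ M) (c : Fin (k + 1) → ℤ) :
    ((Fintype.piFinset (fun _ : Fin (k + 1) => range T)).filter (fun y : Fin (k + 1) → ℕ =>
      ∃ i j, i ≠ j ∧ c i + ((M * y i : ℕ) : ℤ) = c j + ((M * y j : ℕ) : ℤ))).card ≤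
      (k + 1) ^ 2 * T ^ k := by
  have h1 : ∀ i j : Fin (k + 1), i ≠ j →
      ((Fintype.piFinset (fun _ : Fin (k + 1) => range T)).filter (fun y : Fin (k + 1) → ℕ =>
        c i + ((M * y i : ℕ) : ℤ) = c j + ((M * y j : ℕ) : ℤ))).card ≤ T ^ k := by
    intro i j hij
    have h2 : (Fintype.piFinset (fun _ : Fin k => range T)).card = T ^ k := by
      rw [Fintype.card_piFinset]
      simp
    rw [← h2]
    apply card_le_card_of_injOn (fun y l => y (i.succAbove l))
    · intro y hy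
      rw [mem_coe, mem_filter, Fintype.mem_piFinset] at hy
      rw [mem_coe, Fintype.mem_piFinset]
      exact fun l => hy.1 _
    · intro y hy y' hy' hyy
      rw [mem_coe, mem_filter] at hy hy'
      have h3 : ∀ l, y (i.succAbove l) = y' (i.succAbove l) := fun l => congrFun hyy l
      obtain ⟨l, hl⟩ := Fin.exists_succAbove_eq hij.symm
      have h4 : y j = y' j := by rw [← hl]; exact h3 l
      have h5 : ((M * y i : ℕ) : ℤ) = ((M * y' i : ℕ) : ℤ) := by
        have e1 := hy.2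
        have e2 := hy'.2
        rw [h4] at e1
        linarith
      have h6 : y i = y' i := by
        have h7 : M * y i = M * y' i := by exact_mod_cast h5
        exact Nat.eq_of_mul_eq_mul_left (by omega) h7
      funext q
      by_cases hq : q = i
      · rw [hq]; exact h6
      · obtain ⟨l', hl'⟩ := Fin.exists_succAbove_eq hq
        rw [← hl']; exact h3 l'
  have h2 : ((Fintype.piFinset (fun _ : Fin (k + 1) => range T)).filter
      (fun y : Fin (k + 1) → ℕ => ∃ i j, i ≠ j ∧ c i + ((M * y i : ℕ) : ℤ) = c j + ((M * y j : ℕ) : ℤ))) ⊆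
      ((univ : Finset (Fin (k + 1) × Fin (k + 1))).filter (fun x => x.1 ≠ x.2)).biUnion (fun x =>
        (Fintype.piFinset (fun _ : Fin (k + 1) => range T)).filter (fun y : Fin (k + 1) → ℕ =>
        c x.1 + ((M * y x.1 : ℕ) : ℤ) = c x.2 + ((M * y x.2 : ℕ) : ℤ))) := by
    intro y hy
    rw [mem_filter] at hy
    obtain ⟨hy1, i, j, hij, hy2⟩ := hy
    rw [mem_biUnion]
    exact ⟨(i, j), mem_filter.2 ⟨mem_univ _, hij⟩, mem_filter.2 ⟨hy1, hy2⟩⟩
  refine (card_le_card h2).trans (card_biUnion_le.trans ?_)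
  refine (sum_le_card_nsmul _ _ (T ^ k) (fun x hx => h1 x.1 x.2 (mem_filter.1 hx).2)).trans ?_
  rw [smul_eq_mul]
  apply Nat.mul_le_mul_right
  refine (card_filter_le _ _).trans (le_of_eq ?_)
  rw [card_univ, Fintype.card_prod, Fintype.card_fin]
  ring

/-- many classes are dense -/
theorem denseClasses {m T R q : ℕ} (hT : 1 ≤ T) (hR : 18 * R < 5 * m + 18) (hq : 40 * m ≤ q) (hm : 1 ≤ m)
    (A : Fin m → Finset ℕ) (hA : ∀ i, A i ⊆ range T)
    (ε : ℝ) (hε : ε ≤ 1 / q) (h : (5 / 18 - ε) * (m * T) ≤ ((∑ i, (A i).card : ℕ) : ℝ)) :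
    R ≤ ((univ : Finset (Fin m)).filter (fun i => T ≤ q * (A i).card)).card := by
  set D := (univ : Finset (Fin m)).filter (fun i => T ≤ q * (A i).card) with hD
  have hT0 : (0 : ℝ) < T := by exact_mod_cast hT
  have hm0 : (0 : ℝ) < m := by exact_mod_cast hm
  have hq0 : (0 : ℝ) < q := by
    have : 0 < q := by omega
    exact_mod_cast this
  have hqm : (40 : ℝ) * m ≤ q := by exact_mod_cast hq
  have h1 : ∀ i : Fin m, ((A i).card : ℝ) ≤ (if i ∈ D then (T : ℝ) else 0) + T / q := by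
    intro i
    split_ifs with hi
    · have h2 : (A i).card ≤ T := by
        have := card_le_card (hA i)
        rwa [card_range] at this
      have h3 : ((A i).card : ℝ) ≤ T := by exact_mod_cast h2
      have h4 : (0 : ℝ) ≤ T / q := by positivity
      linarith
    · have h2 : ¬ T ≤ q * (A i).card := fun h3 => hi (mem_filter.2 ⟨mem_univ _, h3⟩)
      have h3 : (q : ℝ) * (A i).card ≤ T := by
        have : q * (A i).card ≤ T := by omega
        exact_mod_cast this
      rw [zero_add, le_div_iff₀ hq0]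
      linarith
  have h2 : ((∑ i, (A i).card : ℕ) : ℝ) ≤ T * D.card + m * (T / q) := by
    push_cast
    refine (sum_le_sum fun i _ => h1 i).trans (le_of_eq ?_)
    rw [sum_add_distrib, sum_const, card_univ, Fintype.card_fin, nsmul_eq_mul, ← sum_filter,
      filter_mem_eq_inter, univ_inter, sum_const, nsmul_eq_mul]
    ring
  have hmq : (m : ℝ) * (1 / q) ≤ 1 / 40 := by
    rw [mul_one_div, div_le_div_iff₀ hq0 (by norm_num)]
    linarith
  have h3 : (5 / 18 * m - 1 / 20 : ℝ) * T ≤ D.card * T := by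
    have e1 : ε * m ≤ 1 / 40 := by
      have := mul_le_mul_of_nonneg_right hε hm0.le
      linarith
    have e2 : ε * m * T ≤ 1 / 40 * T := mul_le_mul_of_nonneg_right e1 hT0.le
    have e3 : m * (1 / q : ℝ) * T ≤ 1 / 40 * T := mul_le_mul_of_nonneg_right hmq hT0.le
    have e4 : m * (1 / q : ℝ) * T = m * (T / q) := by ring
    have h5 := h.trans h2
    nlinarith
  have h4 : (5 / 18 * m - 1 / 20 : ℝ) ≤ D.card := le_of_mul_le_mul_right h3 hT0
  by_contra hcon
  have h5 : D.card + 1 ≤ R := by omega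
  have h6 : 18 * (D.card + 1) + 1 ≤ 5 * m + 18 := by omega
  have h7 : (18 : ℝ) * (D.card + 1) + 1 ≤ 5 * m + 18 := by exact_mod_cast h6
  linarith

open Classical in
/-- many good nondegenerate differences -/
theorem manyDiff (k T M q : ℕ) (hM : 1 ≤ M) (hq : 1 ≤ q) (c : Fin (k + 1) → ℤ)
    (A : Fin (k + 1) → Finset ℕ)
    (hA : ∀ i, A i ⊆ range T) (hAc : ∀ i, T ≤ q * (A i).card) (P : (Fin (k + 1) → ℕ) → Prop)
    (hP : (((Fintype.piFinset A).filter (fun y => ¬ P y)).card : ℝ) ≤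
      (1 / q) ^ (k + 1) / 4 * (T : ℝ) ^ (k + 1))
    (hT : 4 * ((k : ℝ) + 1) ^ 2 * q ^ (k + 1) ≤ T) :
    ∃ Y : Finset (Fin (k + 1) → ℕ), (∀ y ∈ Y, (∀ i, y i ∈ A i) ∧ P y ∧
      ∀ i j, i ≠ j → c i + ((M * y i : ℕ) : ℤ) ≠ c j + ((M * y j : ℕ) : ℤ)) ∧
      (1 / q) ^ (k + 1) / 2 * (T : ℝ) ^ k ≤
      ((Y.image (fun (y : Fin (k + 1) → ℕ) (i : Fin k) =>
        (c i.succ + ((M * y i.succ : ℕ) : ℤ)) - (c 0 + ((M * y 0 : ℕ) : ℤ)))).card : ℝ) := by
  have hq0 : (0 : ℝ) < q := by exact_mod_cast hq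
  have hT0 : (0 : ℝ) < T := lt_of_lt_of_le (by positivity) hT
  have hTn : 0 < T := by exact_mod_cast hT0
  set B1 := (Fintype.piFinset A).filter (fun y => ¬ P y) with hB1
  set B2 := (Fintype.piFinset (fun _ : Fin (k + 1) => range T)).filter (fun y : Fin (k + 1) → ℕ =>
      ∃ i j, i ≠ j ∧ c i + ((M * y i : ℕ) : ℤ) = c j + ((M * y j : ℕ) : ℤ)) with hB2
  set Y := Fintype.piFinset A \ (B1 ∪ B2) with hY
  have hYmem : ∀ y ∈ Y, (∀ i, y i ∈ A i) ∧ P y ∧
      ∀ i j, i ≠ j → c i + ((M * y i : ℕ) : ℤ) ≠ c j + ((M * y j : ℕ) : ℤ) := by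
    intro y hy
    rw [hY, Finset.mem_sdiff, Finset.mem_union, not_or, Fintype.mem_piFinset] at hy
    obtain ⟨h1, h2, h3⟩ := hy
    refine ⟨h1, ?_, ?_⟩
    · by_contra hPy
      exact h2 (mem_filter.2 ⟨Fintype.mem_piFinset.2 h1, hPy⟩)
    · intro i j hij he
      exact h3 (mem_filter.2 ⟨Fintype.mem_piFinset.2 (fun i => hA i (h1 i)), i, j, hij, he⟩)
  refine ⟨Y, hYmem, ?_⟩
  have hB2c : (B2.card : ℝ) ≤ (1 / q) ^ (k + 1) / 4 * (T : ℝ) ^ (k + 1) := by
    have h1 : (B2.card : ℝ) ≤ ((k : ℝ) + 1) ^ 2 * (T : ℝ) ^ k := by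
      exact_mod_cast degen k T M hM c
    refine h1.trans ?_
    have h2 : ((k : ℝ) + 1) ^ 2 ≤ (1 / q) ^ (k + 1) / 4 * T := by
      have h72 : (0 : ℝ) < q ^ (k + 1) := by positivity
      have h3 : ((1 : ℝ) / q) ^ (k + 1) = 1 / q ^ (k + 1) := by rw [div_pow, one_pow]
      rw [h3, div_div, div_mul_eq_mul_div, one_mul, le_div_iff₀ (by positivity)]
      linarith
    calc ((k : ℝ) + 1) ^ 2 * (T : ℝ) ^ k ≤ ((1 / q) ^ (k + 1) / 4 * T) * (T : ℝ) ^ k :=
          mul_le_mul_of_nonneg_right h2 (by positivity)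
      _ = (1 / q) ^ (k + 1) / 4 * (T : ℝ) ^ (k + 1) := by rw [pow_succ (T : ℝ)]; ring
  have hPi : (1 / q : ℝ) ^ (k + 1) * (T : ℝ) ^ (k + 1) ≤ ((Fintype.piFinset A).card : ℝ) := by
    rw [Fintype.card_piFinset, ← mul_pow]
    push_cast
    calc (1 / q * (T : ℝ)) ^ (k + 1) = ∏ _i : Fin (k + 1), (1 / q * (T : ℝ)) := by
          rw [prod_const, card_univ, Fintype.card_fin]
      _ ≤ ∏ i : Fin (k + 1), ((A i).card : ℝ) := by
          apply Finset.prod_le_prod
          · intro i _; positivity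
          · intro i _
            have h1 : (T : ℝ) ≤ q * (A i).card := by exact_mod_cast hAc i
            rw [one_div_mul_eq_div, div_le_iff₀ hq0]
            linarith
  have hYc : (1 / q : ℝ) ^ (k + 1) / 2 * (T : ℝ) ^ (k + 1) ≤ (Y.card : ℝ) := by
    have h1 : (Fintype.piFinset A).card ≤ Y.card + (B1.card + B2.card) := by
      have h2 : (Fintype.piFinset A).card ≤ Y.card + (B1 ∪ B2).card := by
        rw [hY]
        exact card_le_card_sdiff_add_card
      exact h2.trans (Nat.add_le_add_left (card_union_le _ _) _)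
    have h3 : ((Fintype.piFinset A).card : ℝ) ≤ Y.card + (B1.card + B2.card) := by exact_mod_cast h1
    linarith
  have hfib : Y.card ≤ T * (Y.image (fun (y : Fin (k + 1) → ℕ) (i : Fin k) =>
        (c i.succ + ((M * y i.succ : ℕ) : ℤ)) - (c 0 + ((M * y 0 : ℕ) : ℤ)))).card := by
    apply card_le_mul_card_image
    intro h _
    rw [← card_range T]
    apply card_le_card_of_injOn (fun y : Fin (k + 1) → ℕ => y 0)
    · intro y hy
      rw [mem_coe, mem_filter] at hy
      exact mem_coe.2 (hA 0 ((hYmem y hy.1).1 0))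
    · intro y hy y' hy' hyy
      rw [mem_coe, mem_filter] at hy hy'
      have h0 : y 0 = y' 0 := hyy
      funext l
      refine Fin.cases h0 (fun i => ?_) l
      have e1 : (c i.succ + ((M * y i.succ : ℕ) : ℤ)) - (c 0 + ((M * y 0 : ℕ) : ℤ)) = h i :=
        congrFun hy.2 i
      have e2 : (c i.succ + ((M * y' i.succ : ℕ) : ℤ)) - (c 0 + ((M * y' 0 : ℕ) : ℤ)) = h i :=
        congrFun hy'.2 i
      rw [h0] at e1
      have e3 : ((M * y i.succ : ℕ) : ℤ) = ((M * y' i.succ : ℕ) : ℤ) := by linarith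
      have e4 : M * y i.succ = M * y' i.succ := by exact_mod_cast e3
      exact Nat.eq_of_mul_eq_mul_left (by omega) e4
  have hfibR : (Y.card : ℝ) ≤ T * ((Y.image (fun (y : Fin (k + 1) → ℕ) (i : Fin k) =>
        (c i.succ + ((M * y i.succ : ℕ) : ℤ)) - (c 0 + ((M * y 0 : ℕ) : ℤ)))).card : ℝ) := by
    exact_mod_cast hfib
  have h5 := hYc.trans hfibR
  rw [pow_succ (T : ℝ)] at h5
  have h6 : T * ((1 / q : ℝ) ^ (k + 1) / 2 * (T : ℝ) ^ k) ≤
      T * ((Y.image (fun (y : Fin (k + 1) → ℕ) (i : Fin k) =>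
        (c i.succ + ((M * y i.succ : ℕ) : ℤ)) - (c 0 + ((M * y 0 : ℕ) : ℤ)))).card : ℝ) := by
    refine le_trans (le_of_eq ?_) h5
    ring
  exact le_of_mul_le_mul_left h6 hT0

end Pool.Agent.K6.H92.PS
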