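import Pool.Agent.K6.H92.PS.Cnt

/-! Among any positions, more than 5/18 of them have all tuples with the right order of magnitude nearby. -/

set_option autoImplicit false

namespace Pool.Agent.K6.H92.PS

open Finset Filter Topology
open Pool.Agent.N646.RO (S_WC HitM badU)
open Pool.Agent.N646.RG

/-- the position, a multiple of `M` -/
def ps (N M : ℕ) (s : ℤ) : ℤ := (s + ((N / 10 + 1 : ℕ) : ℤ)) / M * M

theorem ps_bds {N M : ℕ} (hM : 1 ≤ M) (s : ℤ) (hs : 10 * |s| ≤ N) :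
    0 ≤ ps N M s ∧ ps N M s ≤ s + ((N / 10 + 1 : ℕ) : ℤ) ∧
      s + ((N / 10 + 1 : ℕ) : ℤ) - M < ps N M s ∧ 10 * ps N M s ≤ 2 * N + 10 := by
  have hM0 : (0 : ℤ) < M := by exact_mod_cast hM
  have h2 := abs_le.1 (show |s| ≤ ((N / 10 : ℕ) : ℤ) by omega)
  have h3 : (0 : ℤ) ≤ s + ((N / 10 + 1 : ℕ) : ℤ) := by push_cast; omega
  have h4 := Int.ediv_mul_le (s + ((N / 10 + 1 : ℕ) : ℤ)) hM0.ne'
  have h5 := Int.lt_ediv_add_one_mul_self (s + ((N / 10 + 1 : ℕ) : ℤ)) hM0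
  have h6 : 0 ≤ (s + ((N / 10 + 1 : ℕ) : ℤ)) / M * M :=
    mul_nonneg (Int.ediv_nonneg h3 hM0.le) hM0.le
  have h7 : ((s + ((N / 10 + 1 : ℕ) : ℤ)) / M + 1) * M =
    (s + ((N / 10 + 1 : ℕ) : ℤ)) / M * M + M := by ring
  unfold ps
  rw [h7] at h5
  refine ⟨h6, h4, by linarith, ?_⟩
  refine (mul_le_mul_of_nonneg_left h4 (by norm_num)).trans ?_
  have h8 := h2.2
  push_cast at h8 ⊢
  omega

theorem ps_dvd {N M : ℕ} (s : ℤ) : (M : ℤ) ∣ ps N M s := dvd_mul_left _ _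

theorem afm_of {N : ℕ} (hN : 2 ≤ N) (c : ℤ) (hc0 : 0 ≤ c) (hc : 10 * c ≤ 3 * N + 10) :
    Afm N (1, c) := by
  refine ⟨Or.inl rfl, ?_, ?_⟩
  · show 10 * |c| ≤ 9 * (N : ℤ)
    rw [abs_of_nonneg hc0]
    have : (2 : ℤ) ≤ N := by exact_mod_cast hN
    linarith
  · intro t ht _
    show (N : ℝ) / 20 ≤ ((1 : ℤ) : ℝ) * t + (c : ℝ)
    have h1 : (0 : ℝ) ≤ c := by exact_mod_cast hc0
    have h2 : (0 : ℝ) ≤ N := Nat.cast_nonneg N
    push_cast
    linarith

/-- the number of the primes `p ≤ N` for which all the `p + h i` are primes -/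
def pt {k : ℕ} (h : Fin k → ℤ) (N : ℕ) : ℕ :=
  ((range (N + 1)).filter (fun p : ℕ => p.Prime ∧ ∀ i, ((p : ℤ) + h i).toNat.Prime)).card

open Classical in
/-- the good vectors in a box -/
noncomputable def gb {k : ℕ} (κ : ℝ) (N T : ℕ) (a : Fin k → ℤ) : Finset (Fin k → ℤ) :=
  (Fintype.piFinset (fun i : Fin k => Icc (a i - T) (a i + T))).filter
    (fun h : Fin k → ℤ => Function.Injective h ∧ (∀ i, h i ≠ 0) ∧
      κ * (N / (Real.log N) ^ (k + 1)) ≤ (pt h N : ℝ))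

/-- from the forms to the primes -/
theorem primes_of {k N : ℕ} (hN : 10 ≤ N) (κ : ℝ) (c : Fin (k + 1) → ℤ) (h0 : 0 ≤ c 0)
    (h1 : 10 * c 0 ≤ 3 * N + 10) (hG : Gdf κ N (fun i => ((1 : ℤ), c i))) :
    κ * (N / (Real.log N) ^ (k + 1)) ≤ (pt (fun i : Fin k => c i.succ - c 0) N : ℝ) := by
  unfold Gdf at hG
  refine hG.trans ?_
  unfold pt
  rw [Nat.cast_le]
  obtain ⟨c0, hc0⟩ := Int.eq_ofNat_of_zero_le h0
  apply card_le_card_of_injOn (fun n : ℕ => n + c0)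
  · intro n hn
    rw [mem_coe, mem_filter, IN, mem_Icc] at hn
    obtain ⟨⟨h2, h3⟩, h4⟩ := hn
    have hval : ∀ i, ev ((1 : ℤ), c i) n = n + c i := fun i => by
      show (1 : ℤ) * n + c i = n + c i
      ring
    rw [mem_coe, mem_filter, mem_range]
    refine ⟨?_, ?_, ?_⟩
    · show n + c0 < N + 1
      have h5 : 10 * (c0 : ℤ) ≤ 3 * N + 10 := by
        have := h1
        rw [hc0] at this
        exact this
      have h6 : 10 * c0 ≤ 3 * N + 10 := by exact_mod_cast h5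
      omega
    · have h5 : ((n : ℤ) + (c0 : ℤ)).toNat.Prime := by
        have h6 := h4 0
        rw [hval, hc0] at h6
        exact h6
      have e : ((n : ℤ) + (c0 : ℤ)).toNat = n + c0 := by
        rw [← Nat.cast_add]
        exact Int.toNat_natCast _
      rw [e] at h5
      exact h5
    · intro i
      have h5 := h4 i.succ
      rw [hval] at h5
      have e : (((n + c0 : ℕ) : ℤ) + (c i.succ - c 0)) = n + c i.succ := by
        rw [hc0]
        push_cast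
        simp
      show (((n + c0 : ℕ) : ℤ) + (c i.succ - c 0)).toNat.Prime
      rw [e]
      exact h5
  · intro n _ n' _ hnn
    exact Nat.add_right_cancel hnn

open Classical in
/-- **more than `5 / 18` of any positions** -/
theorem genA (hWC : S_WC) (k : ℕ) (hH : S_HITM2 k) (m R : ℕ) (hm : 1 ≤ m)
    (hR : 18 * R < 5 * m + 18) :
    ∃ δ : ℝ, 0 < δ ∧ ∀ lam : ℝ, 0 < lam → ∃ κ : ℝ, 0 < κ ∧ ∀ᶠ N : ℕ in atTop,
      ∀ T : ℕ, lam * Real.log N ≤ T → 10 * T ≤ N →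
      ∀ s : Fin m → ℤ, (∀ i, 10 * |s i| ≤ N) →
      ∃ D : Finset (Fin m), R ≤ D.card ∧ ∀ τ : Fin (k + 1) → Fin m, Function.Injective τ →
        (∀ i, τ i ∈ D) → δ * (T : ℝ) ^ k ≤
          ((gb κ N T (fun i : Fin k => s (τ i.succ) - s (τ 0))).card : ℝ) := by
  have hq1 : 1 ≤ 40 * m := by omega
  obtain ⟨q, hq⟩ : ∃ q : ℕ, q = 40 * m := ⟨_, rfl⟩
  have hq1' : 1 ≤ q := by omega
  have hq0 : (0 : ℝ) < q := by exact_mod_cast hq1'
  have hqr1 : (1 : ℝ) ≤ q := by exact_mod_cast hq1'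
  obtain ⟨M, hM, hclq⟩ := clqk hWC k hH m hm ((1 / q) ^ (k + 1) / 4) (by positivity)
  have hM0 : (0 : ℝ) < M := by exact_mod_cast hM
  have hMz : (0 : ℤ) < M := by exact_mod_cast hM
  refine ⟨(1 / q) ^ (k + 1) / 2 * (1 / (2 * M)) ^ k, by positivity, fun lam hlam => ?_⟩
  obtain ⟨κ, hκ, hev⟩ := hclq (lam / (2 * M)) (by positivity)
  refine ⟨κ, hκ, ?_⟩
  have hlog : Tendsto (fun N : ℕ => lam / (2 * M) * Real.log (N : ℝ)) atTop atTop :=
    (Real.tendsto_log_atTop.comp tendsto_natCast_atTop_atTop).const_mul_atTop (by positivity)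
  filter_upwards [hev, hlog.eventually_ge_atTop (4 * ((k : ℝ) + 1) ^ 2 * q ^ (k + 1)),
    hlog.eventually_ge_atTop 2, eventually_ge_atTop 10] with N hx hx1 hx2 hN T hT hTN s hs
  -- the number of shifts
  have hTr : lam / (2 * M) * Real.log (N : ℝ) ≤ T / (2 * M) := by
    rw [div_mul_eq_mul_div]
    exact div_le_div_of_nonneg_right hT (by positivity)
  have hT4 : (2 : ℝ) ≤ T / (2 * M) := hx2.trans hTr
  obtain ⟨T₁, hT₁, hT₁le, hT₁ge⟩ : ∃ T₁ : ℕ, 1 ≤ T₁ ∧ M * (T₁ + 1) ≤ T ∧ (T : ℝ) / (2 * M) ≤ T₁ := by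
    have h1 : (4 : ℝ) * M ≤ T := by
      rw [le_div_iff₀ (by positivity)] at hT4
      linarith
    have h2 : 4 * M ≤ T := by exact_mod_cast h1
    have h3 : 4 ≤ T / M := (Nat.le_div_iff_mul_le (by omega)).2 h2
    refine ⟨T / M - 1, by omega, ?_, ?_⟩
    · have h4 : T / M - 1 + 1 = T / M := by omega
      rw [h4]
      exact Nat.mul_div_le T M
    · have h5 : (T : ℝ) / M < (T / M : ℕ) + 1 := by
        rw [div_lt_iff₀ hM0]
        have h6 : T < (T / M + 1) * M := by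
          have := Nat.lt_div_mul_add (a := T) (b := M) (by omega)
          rw [Nat.add_mul, Nat.one_mul]
          exact this
        exact_mod_cast h6
      have h7 : ((T / M - 1 : ℕ) : ℝ) = ((T / M : ℕ) : ℝ) - 1 := by
        rw [Nat.cast_sub (by omega)]
        simp
      rw [h7]
      have h8 : (T : ℝ) / M = 2 * (T / (2 * M)) := by field_simp
      rw [h8] at h5
      linarith
  have hT₁M : M * T₁ ≤ T := (Nat.mul_le_mul_left M (Nat.le_succ T₁)).trans hT₁le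
  obtain ⟨A, hA1, hA2, hA3⟩ := hx T₁ (hTr.trans hT₁ge) (by omega)
    (fun i => ((1 : ℤ), ps N M (s i)))
    (by
      intro i t ht
      obtain ⟨b1, b2, b3, b4⟩ := ps_bds hM (s i) (hs i)
      have h1 : M * t ≤ T := (Nat.mul_le_mul_left M ht).trans hT₁M
      have h2 : 10 * ((M * t : ℕ) : ℤ) ≤ N := by
        have : 10 * (M * t) ≤ N := by omega
        exact_mod_cast this
      exact afm_of (by omega) _ (by positivity) (by linarith))
    (by
      intro p hp hpM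
      refine ⟨1, fun i hdv => ?_⟩
      have h1 : (p : ℤ) ∣ ps N M (s i) :=
        (Int.natCast_dvd_natCast.2 hpM).trans (ps_dvd (s i))
      have h2 : (p : ℤ) ∣ 1 := by
        have h3 : (p : ℤ) ∣ (1 : ℤ) * 1 + ps N M (s i) := hdv
        rw [one_mul] at h3
        exact (Int.dvd_add_left h1).1 h3
      have h3 : p ∣ 1 := by exact_mod_cast h2
      exact hp.one_lt.ne' (Nat.dvd_one.1 h3))
  have hεq : ((1 : ℝ) / q) ^ (k + 1) / 4 ≤ 1 / q := by
    have h1 : ((1 : ℝ) / q) ^ (k + 1) ≤ 1 / q := by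
      rw [pow_succ]
      refine mul_le_of_le_one_left (by positivity) (pow_le_one₀ (by positivity) ?_)
      rw [div_le_one hq0]
      exact hqr1
    have h2 : (0 : ℝ) ≤ (1 / q) ^ (k + 1) := by positivity
    linarith
  have hdense := denseClasses hT₁ hR (by omega : 40 * m ≤ q) hm A hA1 _ hεq hA2
  refine ⟨_, hdense, fun τ hτ hτD => ?_⟩
  have hLS : ∀ i, T₁ ≤ q * (A (τ i)).card := fun i => (mem_filter.1 (hτD i)).2
  set c : Fin (k + 1) → ℤ := fun i => ps N M (s (τ i)) with hc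
  obtain ⟨Y, hY1, hY2⟩ := manyDiff k T₁ M q hM hq1' c (fun i => A (τ i)) (fun i => hA1 _) hLS
    (fun y => Gdf κ N (fun i => sh ((1 : ℤ), ps N M (s (τ i))) (M * y i)))
    (hA3 τ hτ) (hx1.trans (hTr.trans hT₁ge))
  have hfin : (1 / q : ℝ) ^ (k + 1) / 2 * (1 / (2 * M)) ^ k * (T : ℝ) ^ k ≤
      (1 / q) ^ (k + 1) / 2 * (T₁ : ℝ) ^ k := by
    rw [mul_assoc, ← mul_pow]
    apply mul_le_mul_of_nonneg_left _ (by positivity)
    apply pow_le_pow_left₀ (by positivity)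
    rw [one_div, inv_mul_eq_div]
    exact hT₁ge
  refine hfin.trans (hY2.trans ?_)
  rw [Nat.cast_le]
  apply card_le_card
  intro h hh
  obtain ⟨y, hy, rfl⟩ := mem_image.1 hh
  obtain ⟨hyA, hyG, hynd⟩ := hY1 y hy
  have hyT : ∀ i, M * y i ≤ M * T₁ := fun i =>
    Nat.mul_le_mul_left M (mem_range.1 (hA1 _ (hyA i))).le
  unfold gb
  rw [mem_filter, Fintype.mem_piFinset]
  refine ⟨?_, ?_, ?_, ?_⟩
  · intro i
    rw [mem_Icc]
    obtain ⟨-, b2, b3, -⟩ := ps_bds hM (s (τ i.succ)) (hs _)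
    obtain ⟨-, b2', b3', -⟩ := ps_bds hM (s (τ 0)) (hs _)
    have h1 : ((M * y i.succ : ℕ) : ℤ) ≤ M * T₁ := by exact_mod_cast hyT i.succ
    have h2 : ((M * y 0 : ℕ) : ℤ) ≤ M * T₁ := by exact_mod_cast hyT 0
    have h3 : (0 : ℤ) ≤ ((M * y i.succ : ℕ) : ℤ) := Int.natCast_nonneg _
    have h4 : (0 : ℤ) ≤ ((M * y 0 : ℕ) : ℤ) := Int.natCast_nonneg _
    have h5 : (M : ℤ) * T₁ + M ≤ T := by
      have : M * T₁ + M ≤ T := by rw [← Nat.mul_succ]; exact hT₁le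
      exact_mod_cast this
    show s (τ i.succ) - s (τ 0) - T ≤ (ps N M (s (τ i.succ)) + ((M * y i.succ : ℕ) : ℤ)) -
        (ps N M (s (τ 0)) + ((M * y 0 : ℕ) : ℤ)) ∧
      (ps N M (s (τ i.succ)) + ((M * y i.succ : ℕ) : ℤ)) -
        (ps N M (s (τ 0)) + ((M * y 0 : ℕ) : ℤ)) ≤ s (τ i.succ) - s (τ 0) + T
    constructor <;> linarith
  · intro i i' hii
    by_contra hne
    apply hynd i.succ i'.succ (fun h => hne (Fin.succ_injective _ h))
    have h1 : (c i.succ + ((M * y i.succ : ℕ) : ℤ)) - (c 0 + ((M * y 0 : ℕ) : ℤ)) =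
      (c i'.succ + ((M * y i'.succ : ℕ) : ℤ)) - (c 0 + ((M * y 0 : ℕ) : ℤ)) := hii
    linarith
  · intro i h0
    apply hynd i.succ 0 (Fin.succ_ne_zero i)
    have h1 : (c i.succ + ((M * y i.succ : ℕ) : ℤ)) - (c 0 + ((M * y 0 : ℕ) : ℤ)) = 0 := h0
    linarith
  · obtain ⟨b1, -, -, b4⟩ := ps_bds hM (s (τ 0)) (hs _)
    have hG' : Gdf κ N (fun i => ((1 : ℤ), c i + ((M * y i : ℕ) : ℤ))) := hyG
    have h1 : ((M * y 0 : ℕ) : ℤ) * 10 ≤ N := by
      have h2 := hyT 0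
      have : M * y 0 * 10 ≤ N := by omega
      exact_mod_cast this
    exact primes_of hN κ (fun i => c i + ((M * y i : ℕ) : ℤ))
      (by
        show (0 : ℤ) ≤ ps N M (s (τ 0)) + _
        positivity)
      (by
        show 10 * (ps N M (s (τ 0)) + _) ≤ 3 * (N : ℤ) + 10
        linarith) hG'

end Pool.Agent.K6.H92.PS
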