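import Pool.Agent.K6.H92.PS.Gen

/-! Near the subsums of any given vectors: the right order of magnitude. -/

set_option autoImplicit false

namespace Pool.Agent.K6.H92.PS

open Finset Filter Topology
open Pool.Agent.N646.RO (S_WC)
open Pool.Agent.N646.RG (S_HITM2)

/-- the sums of the letters of a word -/
def sw {n k : ℕ} (v : Fin n → Fin k → ℤ) (w : Fin n → Fin (k + 1)) : ℤ :=
  ∑ j, (Fin.cons 0 (v j) : Fin (k + 1) → ℤ) (w j)

theorem sw_abs {n k N : ℕ} (v : Fin n → Fin k → ℤ) (hv : ∀ j i, 10 * n * |v j i| ≤ N)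
    (w : Fin n → Fin (k + 1)) : 10 * |sw v w| ≤ N := by
  rcases Nat.eq_zero_or_pos n with hn | hn
  · subst hn
    simp [sw]
  have hn' : (0 : ℤ) < n := by exact_mod_cast hn
  have h1 : ∀ j, 10 * n * |(Fin.cons 0 (v j) : Fin (k + 1) → ℤ) (w j)| ≤ N := by
    intro j
    refine Fin.cases ?_ (fun i => ?_) (w j)
    · simp
    · simpa using hv j i
  have h2 : |sw v w| ≤ ∑ j, |(Fin.cons 0 (v j) : Fin (k + 1) → ℤ) (w j)| :=
    Finset.abs_sum_le_sum_abs _ _
  have h3 : ∑ j, 10 * n * |(Fin.cons 0 (v j) : Fin (k + 1) → ℤ) (w j)| ≤ ∑ _j : Fin n, (N : ℤ) :=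
    Finset.sum_le_sum fun j _ => h1 j
  rw [← Finset.mul_sum, Finset.sum_const, card_univ, Fintype.card_fin, nsmul_eq_mul] at h3
  have h4 : (n : ℤ) * (10 * |sw v w|) ≤ n * N := by
    calc (n : ℤ) * (10 * |sw v w|) = 10 * n * |sw v w| := by ring
      _ ≤ 10 * n * ∑ j, |(Fin.cons 0 (v j) : Fin (k + 1) → ℤ) (w j)| :=
          mul_le_mul_of_nonneg_left h2 (by positivity)
      _ ≤ n * N := h3
  exact le_of_mul_le_mul_left h4 hn'

theorem sw_diff {n k : ℕ} (v : Fin n → Fin k → ℤ) (L : Combinatorics.Line (Fin (k + 1)) (Fin n))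
    (i : Fin k) : sw v (L i.succ) - sw v (L 0) =
      ∑ j ∈ univ.filter (fun j => L.idxFun j = none), v j i := by
  unfold sw
  rw [← sum_sub_distrib, sum_filter]
  refine sum_congr rfl fun j _ => ?_
  by_cases hj : L.idxFun j = none
  · rw [if_pos hj, Combinatorics.Line.apply_none _ _ _ hj, Combinatorics.Line.apply_none _ _ _ hj]
    simp
  · rw [if_neg hj]
    obtain ⟨y, hy⟩ := Option.ne_none_iff_exists'.1 hj
    rw [Combinatorics.Line.apply_some hy, Combinatorics.Line.apply_some hy, sub_self]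

/-- **near the subsums of any given vectors** -/
theorem near (hWC : S_WC) (k : ℕ) (hH : S_HITM2 k)
    (hD : ∃ n : ℕ, ∀ A : Finset (Fin n → Fin (k + 1)), (k + 1) ^ n ≤ 4 * A.card →
      ∃ L : Combinatorics.Line (Fin (k + 1)) (Fin n), ∀ i, L i ∈ A) :
    ∃ n : ℕ, ∃ δ : ℝ, 0 < δ ∧ ∀ lam : ℝ, 0 < lam → ∃ κ : ℝ, 0 < κ ∧ ∀ᶠ N : ℕ in atTop,
      ∀ T : ℕ, lam * Real.log N ≤ T → 10 * T ≤ N →
      ∀ v : Fin n → Fin k → ℤ, (∀ j i, 10 * n * |v j i| ≤ N) →
      ∃ J : Finset (Fin n), J.Nonempty ∧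
        δ * (T : ℝ) ^ k ≤ ((gb κ N T (fun i : Fin k => ∑ j ∈ J, v j i)).card : ℝ) := by
  obtain ⟨n, hn⟩ := hD
  have hm : 1 ≤ (k + 1) ^ n := Nat.one_le_pow _ _ (by omega)
  obtain ⟨δ, hδ, h⟩ := genA hWC k hH ((k + 1) ^ n) (((k + 1) ^ n + 3) / 4) hm (by omega)
  refine ⟨n, δ, hδ, fun lam hlam => ?_⟩
  obtain ⟨κ, hκ, hev⟩ := h lam hlam
  refine ⟨κ, hκ, ?_⟩
  filter_upwards [hev] with N hx T hT hTN v hv
  set e : (Fin n → Fin (k + 1)) ≃ Fin ((k + 1) ^ n) := finFunctionFinEquiv with he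
  obtain ⟨D, hD1, hD2⟩ := hx T hT hTN (fun i => sw v (e.symm i)) (fun i => sw_abs v hv _)
  obtain ⟨L, hL⟩ := hn (D.map e.symm.toEmbedding) (by rw [card_map]; omega)
  have hLS : ∀ i, e (L i) ∈ D := by
    intro i
    have := hL i
    rw [Finset.mem_map] at this
    obtain ⟨g, hg, hgi⟩ := this
    have h2 : e (L i) = g := by
      rw [← hgi]
      simp
    rw [h2]
    exact hg
  have hLinj : Function.Injective (fun i => e (L i)) := by
    intro i i' hii
    have hii' : L i = L i' := e.injective hii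
    obtain ⟨j, hj⟩ := L.proper
    have := congrFun hii' j
    rw [Combinatorics.Line.apply_none _ _ _ hj, Combinatorics.Line.apply_none _ _ _ hj] at this
    exact this
  refine ⟨univ.filter (fun j => L.idxFun j = none), ?_, ?_⟩
  · obtain ⟨j, hj⟩ := L.proper
    exact ⟨j, by simp [hj]⟩
  · have h1 := hD2 (fun i => e (L i)) hLinj hLS
    have h2 : (fun i : Fin k => sw v (e.symm (e (L i.succ))) - sw v (e.symm (e (L 0)))) =
        (fun i : Fin k => ∑ j ∈ univ.filter (fun j => L.idxFun j = none), v j i) := by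
      funext i
      rw [Equiv.symm_apply_apply, Equiv.symm_apply_apply]
      exact sw_diff v L i
    rw [h2] at h1
    exact h1

end Pool.Agent.K6.H92.PS
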