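import Pool.Agent.K6.H92.PS.Gen

/-! Rectangles in dense subsets of a grid of positions. -/

set_option autoImplicit false

namespace Pool.Agent.K6.H92.PS

open Finset Filter Topology
open Pool.Agent.N646.RO (S_WC)
open Pool.Agent.N646.RG (S_HITM2)

theorem choose_two_ge (a : ℕ) : 4 * (a : ℤ) - 10 ≤ ((a.choose 2 : ℕ) : ℤ) := by
  have h1 : a.choose 2 * 2 = a * (a - 1) := by
    rw [Nat.choose_two_right]
    exact Nat.div_mul_cancel (Nat.even_mul_pred_self a).two_dvd
  have h2 : ((a.choose 2 : ℕ) : ℤ) * 2 = a * (a - 1) := by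
    rcases Nat.eq_zero_or_pos a with h | h
    · subst h; simp
    · have h3 : ((a - 1 : ℕ) : ℤ) = a - 1 := by
        rw [Nat.cast_sub h]; simp
      have h4 : ((a.choose 2 * 2 : ℕ) : ℤ) = ((a * (a - 1) : ℕ) : ℤ) := by rw [h1]
      rw [Nat.cast_mul, Nat.cast_mul, h3] at h4
      exact_mod_cast h4
  have h3 : (0 : ℤ) ≤ ((a : ℤ) - 4) * (a - 5) := by
    rcases le_or_gt (a : ℤ) 4 with h | h
    · exact mul_nonneg_of_nonpos_of_nonpos (by linarith) (by linarith)
    · exact mul_nonneg (by linarith) (by linarith)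
  nlinarith

/-- a subset of the `16 × 16` grid with at least 72 elements contains a rectangle -/
theorem rect16 (D : Finset (Fin 16 × Fin 16)) (hD : 72 ≤ D.card) :
    ∃ i i' j j' : Fin 16, i < i' ∧ j < j' ∧ (i, j) ∈ D ∧ (i', j) ∈ D ∧ (i, j') ∈ D ∧ (i', j') ∈ D := by
  classical
  set C : Fin 16 → Finset (Fin 16) := fun j => univ.filter (fun i => (i, j) ∈ D) with hC
  have hcard : D.card = ∑ j, (C j).card := by
    rw [card_eq_sum_card_fiberwise (f := Prod.snd) (t := univ) (fun _ _ => mem_univ _)]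
    refine sum_congr rfl fun j _ => ?_
    refine card_bij' (fun x _ => x.1) (fun i _ => (i, j)) ?_ ?_ ?_ ?_
    · intro x hx
      rw [mem_filter] at hx
      rw [hC, mem_filter]
      refine ⟨mem_univ _, ?_⟩
      rw [← hx.2]
      exact hx.1
    · intro i hi
      rw [hC, mem_filter] at hi
      rw [mem_filter]
      exact ⟨hi.2, rfl⟩
    · intro x hx
      exact Prod.ext rfl (mem_filter.1 hx).2.symm
    · intro i _
      rfl
  by_contra hcon
  have hdisj : ∀ j ∈ (univ : Finset (Fin 16)), ∀ j' ∈ (univ : Finset (Fin 16)), j ≠ j' →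
      Disjoint ((C j).powersetCard 2) ((C j').powersetCard 2) := by
    intro j _ j' _ hjj
    rw [Finset.disjoint_left]
    intro P hP hP'
    rw [mem_powersetCard] at hP hP'
    obtain ⟨a, b, hab, hPe⟩ := card_eq_two.1 hP.2
    have hmem : ∀ x ∈ P, (x, j) ∈ D ∧ (x, j') ∈ D := fun x hx =>
      ⟨(mem_filter.1 (hP.1 hx)).2, (mem_filter.1 (hP'.1 hx)).2⟩
    have ha := hmem a (by rw [hPe]; simp)
    have hb := hmem b (by rw [hPe]; simp)
    apply hcon
    rcases lt_or_gt_of_ne hab with h1 | h1 <;> rcases lt_or_gt_of_ne hjj with h2 | h2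
    · exact ⟨a, b, j, j', h1, h2, ha.1, hb.1, ha.2, hb.2⟩
    · exact ⟨a, b, j', j, h1, h2, ha.2, hb.2, ha.1, hb.1⟩
    · exact ⟨b, a, j, j', h1, h2, hb.1, ha.1, hb.2, ha.2⟩
    · exact ⟨b, a, j', j, h1, h2, hb.2, ha.2, hb.1, ha.1⟩
  have h1 : ∑ j, ((C j).powersetCard 2).card ≤ 120 := by
    rw [← card_biUnion hdisj]
    have h2 : (univ.biUnion (fun j => (C j).powersetCard 2)) ⊆
        (univ : Finset (Fin 16)).powersetCard 2 := by
      intro P hP
      rw [mem_biUnion] at hP
      obtain ⟨j, _, hP⟩ := hP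
      rw [mem_powersetCard] at hP ⊢
      exact ⟨subset_univ _, hP.2⟩
    refine (card_le_card h2).trans ?_
    rw [card_powersetCard, card_univ, Fintype.card_fin]
    decide
  have h2 : (∑ j : Fin 16, (4 * ((C j).card : ℤ) - 10)) ≤ 120 := by
    refine (sum_le_sum fun j _ => choose_two_ge (C j).card).trans ?_
    have h3 : ((∑ j, ((C j).powersetCard 2).card : ℕ) : ℤ) ≤ 120 := by exact_mod_cast h1
    simp only [card_powersetCard] at h3
    push_cast at h3 ⊢
    exact h3
  have h3 : (72 : ℤ) ≤ ∑ j : Fin 16, ((C j).card : ℤ) := by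
    rw [hcard] at hD
    exact_mod_cast hD
  rw [sum_sub_distrib, ← mul_sum] at h2
  simp at h2
  linarith

/-- a subset of the `6 × 7` grid with at least 12 elements contains an angle -/
theorem angle67 (D : Finset (Fin 6 × Fin 7)) (hD : 12 ≤ D.card) :
    ∃ (i i' : Fin 6) (j j' : Fin 7), i ≠ i' ∧ j ≠ j' ∧ (i, j) ∈ D ∧ (i', j) ∈ D ∧ (i, j') ∈ D := by
  classical
  by_contra hcon
  -- the elements which are alone in their row, the elements which are alone in their column
  set R := D.filter (fun x => ∀ j', (x.1, j') ∈ D → j' = x.2) with hR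
  set C := D.filter (fun x => ∀ i', (i', x.2) ∈ D → i' = x.1) with hC
  have hcov : D ⊆ R ∪ C := by
    intro x hx
    rw [Finset.mem_union, hR, hC, mem_filter, mem_filter]
    by_contra h
    rw [not_or] at h
    obtain ⟨h1, h2⟩ := h
    have h3 : ∃ j', (x.1, j') ∈ D ∧ j' ≠ x.2 := by
      by_contra h4
      exact h1 ⟨hx, fun j' hj' => by
        by_contra h5
        exact h4 ⟨j', hj', h5⟩⟩
    have h4 : ∃ i', (i', x.2) ∈ D ∧ i' ≠ x.1 := by
      by_contra h4
      exact h2 ⟨hx, fun i' hi' => by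
        by_contra h5
        exact h4 ⟨i', hi', h5⟩⟩
    obtain ⟨j', hj', hjne⟩ := h3
    obtain ⟨i', hi', hine⟩ := h4
    exact hcon ⟨x.1, i', x.2, j', hine.symm, hjne.symm, hx, hi', hj'⟩
  have hRinj : Set.InjOn Prod.fst (R : Set (Fin 6 × Fin 7)) := by
    intro x hx y hy hxy
    rw [mem_coe, hR, mem_filter] at hx hy
    have h1 : y.2 = x.2 := hx.2 y.2 (by rw [hxy]; exact hy.1)
    exact Prod.ext hxy h1.symm
  have hCinj : Set.InjOn Prod.snd (C : Set (Fin 6 × Fin 7)) := by
    intro x hx y hy hxy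
    rw [mem_coe, hC, mem_filter] at hx hy
    have h1 : y.1 = x.1 := hx.2 y.1 (by rw [hxy]; exact hy.1)
    exact Prod.ext h1.symm hxy
  have hRc : R.card ≤ 6 := by
    have := card_le_card_of_injOn (s := R) (t := (univ : Finset (Fin 6))) Prod.fst
      (fun _ _ => mem_coe.2 (mem_univ _)) hRinj
    simpa using this
  have hCc : C.card ≤ 7 := by
    have := card_le_card_of_injOn (s := C) (t := (univ : Finset (Fin 7))) Prod.snd
      (fun _ _ => mem_coe.2 (mem_univ _)) hCinj
    simpa using this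
  have hun : D.card ≤ R.card + C.card := (card_le_card hcov).trans (card_union_le _ _)
  rcases Nat.lt_or_ge R.card 6 with hR6 | hR6
  · rcases Nat.lt_or_ge C.card 7 with hC7 | hC7
    · omega
    · -- every column has one element only
      have himg : C.image Prod.snd = univ := by
        apply eq_univ_of_card
        rw [card_image_of_injOn hCinj, Fintype.card_fin]
        omega
      have hDC : D ⊆ C := by
        intro x hx
        have h1 : x.2 ∈ C.image Prod.snd := by rw [himg]; exact mem_univ _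
        obtain ⟨y, hy, hyx⟩ := mem_image.1 h1
        have hy' := mem_filter.1 hy
        have h2 : x.1 = y.1 := hy'.2 x.1 (by rw [hyx]; exact hx)
        have h3 : x = y := Prod.ext h2 hyx.symm
        rw [h3]
        exact hy
      have := card_le_card hDC
      omega
  · have himg : R.image Prod.fst = univ := by
      apply eq_univ_of_card
      rw [card_image_of_injOn hRinj, Fintype.card_fin]
      omega
    have hDR : D ⊆ R := by
      intro x hx
      have h1 : x.1 ∈ R.image Prod.fst := by rw [himg]; exact mem_univ _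
      obtain ⟨y, hy, hyx⟩ := mem_image.1 h1
      have hy' := mem_filter.1 hy
      have h2 : x.2 = y.2 := hy'.2 x.2 (by rw [hyx]; exact hx)
      have h3 : x = y := Prod.ext hyx.symm h2
      rw [h3]
      exact hy
    have := card_le_card hDR
    omega

/-- **parallelograms**: sixteen and sixteen integers -/
theorem parallelograms (hWC : S_WC) (hH : S_HITM2 3) :
    ∃ δ : ℝ, 0 < δ ∧ ∀ lam : ℝ, 0 < lam → ∃ κ : ℝ, 0 < κ ∧ ∀ᶠ N : ℕ in atTop,
      ∀ T : ℕ, lam * Real.log N ≤ T → 10 * T ≤ N →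
      ∀ a b : Fin 16 → ℤ, (∀ i, 20 * |a i| ≤ N) → (∀ j, 20 * |b j| ≤ N) →
      ∃ i i' j j' : Fin 16, i < i' ∧ j < j' ∧ δ * (T : ℝ) ^ 3 ≤
        ((gb κ N T ![a i' - a i, b j' - b j, (a i' - a i) + (b j' - b j)]).card : ℝ) := by
  classical
  obtain ⟨δ, hδ, h⟩ := genA hWC 3 hH (16 * 16) 72 (by norm_num) (by norm_num)
  refine ⟨δ, hδ, fun lam hlam => ?_⟩
  obtain ⟨κ, hκ, hev⟩ := h lam hlam
  refine ⟨κ, hκ, ?_⟩
  filter_upwards [hev] with N hx T hT hTN a b ha hb
  set e : Fin 16 × Fin 16 ≃ Fin (16 * 16) := finProdFinEquiv with he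
  obtain ⟨D, hD1, hD2⟩ := hx T hT hTN (fun x => a (e.symm x).1 + b (e.symm x).2) (fun x => by
    have h1 := ha (e.symm x).1
    have h2 := hb (e.symm x).2
    have h3 := abs_add_le (a (e.symm x).1) (b (e.symm x).2)
    linarith)
  obtain ⟨i, i', j, j', hi, hj, m1, m2, m3, m4⟩ :=
    rect16 (D.map e.symm.toEmbedding) (by rw [card_map]; exact hD1)
  have hmem : ∀ x, x ∈ D.map e.symm.toEmbedding → e x ∈ D := by
    intro x hx
    rw [Finset.mem_map] at hx
    obtain ⟨y, hy, hyx⟩ := hx
    have : e x = y := by rw [← hyx]; simp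
    rw [this]
    exact hy
  refine ⟨i, i', j, j', hi, hj, ?_⟩
  have h1 := hD2 (fun l => e (![(i, j), (i', j), (i, j'), (i', j')] l)) (by
    intro l l' hll
    have h2 := e.injective hll
    have hi' : i ≠ i' := hi.ne
    have hj' : j ≠ j' := hj.ne
    fin_cases l <;> fin_cases l' <;> simp_all [Prod.ext_iff, eq_comm]) (by
    intro l
    fin_cases l
    · exact hmem _ m1
    · exact hmem _ m2
    · exact hmem _ m3
    · exact hmem _ m4)
  have h2 : (fun l : Fin 3 => (a (e.symm (e (![(i, j), (i', j), (i, j'), (i', j')] l.succ))).1 +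
      b (e.symm (e (![(i, j), (i', j), (i, j'), (i', j')] l.succ))).2) -
      (a (e.symm (e (![(i, j), (i', j), (i, j'), (i', j')] 0))).1 +
      b (e.symm (e (![(i, j), (i', j), (i, j'), (i', j')] 0))).2)) =
      ![a i' - a i, b j' - b j, (a i' - a i) + (b j' - b j)] := by
    funext l
    simp only [Equiv.symm_apply_apply]
    fin_cases l
    · show (a i' + b j) - (a i + b j) = a i' - a i
      ring
    · show (a i + b j') - (a i + b j) = b j' - b j
      ring
    · show (a i' + b j') - (a i + b j) = (a i' - a i) + (b j' - b j)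
      ring
  rw [h2] at h1
  exact h1

/-- **angles**: six and seven integers -/
theorem angles (hWC : S_WC) (hH : S_HITM2 2) :
    ∃ δ : ℝ, 0 < δ ∧ ∀ lam : ℝ, 0 < lam → ∃ κ : ℝ, 0 < κ ∧ ∀ᶠ N : ℕ in atTop,
      ∀ T : ℕ, lam * Real.log N ≤ T → 10 * T ≤ N →
      ∀ (a : Fin 6 → ℤ) (b : Fin 7 → ℤ), (∀ i, 20 * |a i| ≤ N) → (∀ j, 20 * |b j| ≤ N) →
      ∃ (i i' : Fin 6) (j j' : Fin 7), i ≠ i' ∧ j ≠ j' ∧ δ * (T : ℝ) ^ 2 ≤
        ((gb κ N T ![a i' - a i, b j' - b j]).card : ℝ) := by
  classical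
  obtain ⟨δ, hδ, h⟩ := genA hWC 2 hH (6 * 7) 12 (by norm_num) (by norm_num)
  refine ⟨δ, hδ, fun lam hlam => ?_⟩
  obtain ⟨κ, hκ, hev⟩ := h lam hlam
  refine ⟨κ, hκ, ?_⟩
  filter_upwards [hev] with N hx T hT hTN a b ha hb
  set e : Fin 6 × Fin 7 ≃ Fin (6 * 7) := finProdFinEquiv with he
  obtain ⟨D, hD1, hD2⟩ := hx T hT hTN (fun x => a (e.symm x).1 + b (e.symm x).2) (fun x => by
    have h1 := ha (e.symm x).1
    have h2 := hb (e.symm x).2
    have h3 := abs_add_le (a (e.symm x).1) (b (e.symm x).2)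
    linarith)
  obtain ⟨i, i', j, j', hi, hj, m1, m2, m3⟩ :=
    angle67 (D.map e.symm.toEmbedding) (by rw [card_map]; exact hD1)
  have hmem : ∀ x, x ∈ D.map e.symm.toEmbedding → e x ∈ D := by
    intro x hx
    rw [Finset.mem_map] at hx
    obtain ⟨y, hy, hyx⟩ := hx
    have : e x = y := by rw [← hyx]; simp
    rw [this]
    exact hy
  refine ⟨i, i', j, j', hi, hj, ?_⟩
  have h1 := hD2 (fun l => e (![(i, j), (i', j), (i, j')] l)) (by
    intro l l' hll
    have h2 := e.injective hll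
    fin_cases l <;> fin_cases l' <;> simp_all [Prod.ext_iff, eq_comm]) (by
    intro l
    fin_cases l
    · exact hmem _ m1
    · exact hmem _ m2
    · exact hmem _ m3)
  have h2 : (fun l : Fin 2 => (a (e.symm (e (![(i, j), (i', j), (i, j')] l.succ))).1 +
      b (e.symm (e (![(i, j), (i', j), (i, j')] l.succ))).2) -
      (a (e.symm (e (![(i, j), (i', j), (i, j')] 0))).1 +
      b (e.symm (e (![(i, j), (i', j), (i, j')] 0))).2)) =
      ![a i' - a i, b j' - b j] := by
    funext l
    simp only [Equiv.symm_apply_apply]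
    fin_cases l
    · show (a i' + b j) - (a i + b j) = a i' - a i
      ring
    · show (a i + b j') - (a i + b j) = b j' - b j
      ring
  rw [h2] at h1
  exact h1

end Pool.Agent.K6.H92.PS
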