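import Pool.Agent.K6.H92.PS.Near

/-! Subsums with different radii; all boxes at most scales. -/

set_option autoImplicit false

namespace Pool.Agent.K6.H92.PS

open Finset Filter Topology
open Pool.Agent.N646.RO (S_WC)
open Pool.Agent.N646.RG (S_HITM2)

open Classical in
/-- counting in a product along one coordinate -/
theorem fibre {n : ℕ} {α : Type} (U : Fin n → Finset α) (m : Fin n) (P : (Fin n → α) → Prop) (B : ℝ)
    (h : ∀ u ∈ Fintype.piFinset U, (((U m).filter (fun a => P (Function.update u m a))).card : ℝ) ≤ B) :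
    (((Fintype.piFinset U).filter P).card : ℝ) * ((U m).card : ℝ) ≤
      B * ((Fintype.piFinset U).card : ℝ) := by
  have hmap : ∀ u ∈ Fintype.piFinset U, ∀ a ∈ U m, Function.update u m a ∈ Fintype.piFinset U := by
    intro u hu a ha
    rw [Fintype.mem_piFinset] at hu ⊢
    intro i
    by_cases hi : i = m
    · subst hi
      rw [Function.update_self]
      exact ha
    · rw [Function.update_of_ne hi]
      exact hu i
  -- pairs
  set X := (Fintype.piFinset U ×ˢ U m).filter (fun x => P (Function.update x.1 m x.2)) with hX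
  have h1 : X.card = ∑ u ∈ Fintype.piFinset U,
      ((U m).filter (fun a => P (Function.update u m a))).card := by
    rw [hX, card_filter, sum_product]
    refine sum_congr rfl fun u _ => ?_
    rw [card_filter]
  have h2 : ((Fintype.piFinset U).filter P).card * (U m).card ≤ X.card := by
    rw [← card_product]
    apply card_le_card_of_injOn (fun x : (Fin n → α) × α => (Function.update x.1 m x.2, x.1 m))
    · intro x hx
      rw [mem_coe, mem_product, mem_filter] at hx
      obtain ⟨⟨hx1, hx2⟩, hx3⟩ := hx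
      rw [mem_coe, hX, mem_filter, mem_product]
      refine ⟨⟨hmap _ hx1 _ hx3, (Fintype.mem_piFinset.1 hx1) m⟩, ?_⟩
      show P (Function.update (Function.update x.1 m x.2) m (x.1 m))
      rw [Function.update_idem, Function.update_eq_self]
      exact hx2
    · intro x _ y _ hxy
      have e1 := (Prod.ext_iff.1 hxy).1
      have e2 : x.1 m = y.1 m := (Prod.ext_iff.1 hxy).2
      simp only at e1
      have e3 : x.2 = y.2 := by
        have := congrFun e1 m
        rwa [Function.update_self, Function.update_self] at this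
      have e4 : x.1 = y.1 := by
        funext i
        by_cases hi : i = m
        · rw [hi]; exact e2
        · have := congrFun e1 i
          rwa [Function.update_of_ne hi, Function.update_of_ne hi] at this
      exact Prod.ext e4 e3
  calc (((Fintype.piFinset U).filter P).card : ℝ) * ((U m).card : ℝ) ≤ (X.card : ℝ) := by
        exact_mod_cast h2
    _ = ∑ u ∈ Fintype.piFinset U, (((U m).filter (fun a => P (Function.update u m a))).card : ℝ) := by
        rw [h1]; push_cast; rfl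
    _ ≤ ∑ _u ∈ Fintype.piFinset U, B := sum_le_sum h
    _ = B * ((Fintype.piFinset U).card : ℝ) := by rw [sum_const, nsmul_eq_mul]; ring

theorem gb_sub {k : ℕ} {κ : ℝ} {N T T' : ℕ} {a a' : Fin k → ℤ} (h : ∀ i, |a i - a' i| + T ≤ T') :
    gb κ N T a ⊆ gb κ N T' a' := by
  intro x hx
  unfold gb at hx ⊢
  rw [mem_filter, Fintype.mem_piFinset] at hx ⊢
  refine ⟨fun i => ?_, hx.2⟩
  have h1 := hx.1 i
  rw [mem_Icc] at h1 ⊢
  have h2 := h i
  have h3 := abs_le.1 (le_refl |a i - a' i|)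
  constructor <;> linarith [h1.1, h1.2, h3.1, h3.2]

open Classical in
/-- the number of the centres -/
theorem centres {k : ℕ} (T : ℕ) (U : Finset (Fin k → ℤ)) (x h : Fin k → ℤ) :
    (U.filter (fun a => ∀ i, |h i - (x i + a i)| ≤ T)).card ≤ (2 * T + 1) ^ k := by
  have h1 : (Fintype.piFinset (fun i : Fin k => Icc (h i - x i - T) (h i - x i + T))).card =
      (2 * T + 1) ^ k := by
    rw [Fintype.card_piFinset]
    have : ∀ i : Fin k, (Icc (h i - x i - T) (h i - x i + (T : ℤ))).card = 2 * T + 1 := by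
      intro i
      rw [Int.card_Icc]
      omega
    rw [prod_congr rfl (fun i _ => this i), prod_const, card_univ, Fintype.card_fin]
  rw [← h1]
  apply card_le_card
  intro a ha
  rw [mem_filter] at ha
  rw [Fintype.mem_piFinset]
  intro i
  have h2 := abs_le.1 (ha.2 i)
  rw [mem_Icc]
  constructor <;> linarith [h2.1, h2.2]

open Classical in
/-- if many centres have many good vectors nearby then there are many good vectors -/
theorem manyGood {k : ℕ} (κ δ : ℝ) (N T T' : ℕ) (hT : 1 ≤ T) (hδ : 0 < δ) (U : Finset (Fin k → ℤ))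
    (x y : Fin k → ℤ) (hU : ∀ a ∈ U, ∀ i, |x i + a i - y i| + T ≤ T') :
    ((U.filter (fun a => δ * (T : ℝ) ^ k ≤ ((gb κ N T (fun i => x i + a i)).card : ℝ))).card : ℝ) ≤
      3 ^ k / δ * ((gb κ N T' y).card : ℝ) := by
  set V := U.filter (fun a => δ * (T : ℝ) ^ k ≤ ((gb κ N T (fun i => x i + a i)).card : ℝ)) with hV
  set G := gb κ N T' y with hG
  have h1 : ∑ a ∈ V, ((gb κ N T (fun i => x i + a i)).card : ℝ) ≤
      ∑ h ∈ G, ((V.filter (fun a => ∀ i, |h i - (x i + a i)| ≤ T)).card : ℝ) := by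
    have h2 : ∀ a ∈ V, (gb κ N T (fun i => x i + a i)).card ≤
        (G.filter (fun h => ∀ i, |h i - (x i + a i)| ≤ T)).card := by
      intro a ha
      apply card_le_card
      intro h hh
      rw [mem_filter]
      refine ⟨gb_sub (hU a (mem_filter.1 ha).1) hh, fun i => ?_⟩
      unfold gb at hh
      rw [mem_filter, Fintype.mem_piFinset] at hh
      have h3 := mem_Icc.1 (hh.1 i)
      rw [abs_le]
      constructor <;> linarith [h3.1, h3.2]
    have h3 : ∑ a ∈ V, (G.filter (fun h => ∀ i, |h i - (x i + a i)| ≤ T)).card =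
        ∑ h ∈ G, (V.filter (fun a => ∀ i, |h i - (x i + a i)| ≤ T)).card := by
      simp only [card_filter]
      exact sum_comm
    have h4 : ∑ a ∈ V, (gb κ N T (fun i => x i + a i)).card ≤
        ∑ h ∈ G, (V.filter (fun a => ∀ i, |h i - (x i + a i)| ≤ T)).card := by
      rw [← h3]
      exact sum_le_sum h2
    exact_mod_cast h4
  have h2 : (V.card : ℝ) * (δ * (T : ℝ) ^ k) ≤ ∑ a ∈ V, ((gb κ N T (fun i => x i + a i)).card : ℝ) := by
    rw [← nsmul_eq_mul, ← sum_const]
    exact sum_le_sum fun a ha => (mem_filter.1 ha).2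
  have h3 : ∑ h ∈ G, ((V.filter (fun a => ∀ i, |h i - (x i + a i)| ≤ T)).card : ℝ) ≤
      (G.card : ℝ) * (2 * T + 1) ^ k := by
    rw [← nsmul_eq_mul, ← sum_const]
    refine sum_le_sum fun h _ => ?_
    exact_mod_cast centres T V x h
  have hT1 : (1 : ℝ) ≤ T := by exact_mod_cast hT
  have h4 : ((2 : ℝ) * T + 1) ^ k ≤ 3 ^ k * (T : ℝ) ^ k := by
    rw [← mul_pow]
    exact pow_le_pow_left₀ (by positivity) (by linarith) _
  have h5 : (V.card : ℝ) * (δ * (T : ℝ) ^ k) ≤ (G.card : ℝ) * (3 ^ k * (T : ℝ) ^ k) :=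
    h2.trans (h1.trans (h3.trans (mul_le_mul_of_nonneg_left h4 (by positivity))))
  have hTk : (0 : ℝ) < (T : ℝ) ^ k := by positivity
  have h6 : (V.card : ℝ) * δ ≤ (G.card : ℝ) * 3 ^ k := by
    have e1 : (V.card : ℝ) * (δ * (T : ℝ) ^ k) = ((V.card : ℝ) * δ) * (T : ℝ) ^ k := by ring
    have e2 : (G.card : ℝ) * (3 ^ k * (T : ℝ) ^ k) = ((G.card : ℝ) * 3 ^ k) * (T : ℝ) ^ k := by ring
    rw [e1, e2] at h5
    exact le_of_mul_le_mul_right h5 hTk
  rw [div_mul_eq_mul_div, le_div_iff₀ hδ]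
  linarith

open Classical in
/-- **different radii** -/
theorem nearRad (k : ℕ)
    (hnear : ∃ n : ℕ, ∃ δ : ℝ, 0 < δ ∧ ∀ lam : ℝ, 0 < lam → ∃ κ : ℝ, 0 < κ ∧ ∀ᶠ N : ℕ in atTop,
      ∀ T : ℕ, lam * Real.log N ≤ T → 10 * T ≤ N →
      ∀ v : Fin n → Fin k → ℤ, (∀ j i, 10 * n * |v j i| ≤ N) →
      ∃ J : Finset (Fin n), J.Nonempty ∧
        δ * (T : ℝ) ^ k ≤ ((gb κ N T (fun i : Fin k => ∑ j ∈ J, v j i)).card : ℝ)) :
    ∃ n : ℕ, ∃ c : ℝ, 0 < c ∧ ∀ lam : ℝ, 0 < lam → ∃ κ : ℝ, 0 < κ ∧ ∀ᶠ N : ℕ in atTop,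
      ∀ (v : Fin n → Fin k → ℤ) (T : Fin n → ℕ), (∀ j, lam * Real.log N ≤ T j) →
      (∀ j i, 10 * n * (|v j i| + T j) ≤ N) →
      ∃ J : Finset (Fin n), J.Nonempty ∧ c * ((∑ j ∈ J, T j : ℕ) : ℝ) ^ k ≤
        ((gb κ N (∑ j ∈ J, T j) (fun i : Fin k => ∑ j ∈ J, v j i)).card : ℝ) := by
  obtain ⟨n, δ, hδ, h⟩ := hnear
  refine ⟨n, δ / (2 ^ n * (6 * (n + 1)) ^ k), by positivity, fun lam hlam => ?_⟩
  obtain ⟨κ, hκ, hev⟩ := h (lam / 4) (by positivity)
  refine ⟨κ, hκ, ?_⟩
  have hlog : Tendsto (fun N : ℕ => lam / 4 * Real.log (N : ℝ)) atTop atTop :=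
    (Real.tendsto_log_atTop.comp tendsto_natCast_atTop_atTop).const_mul_atTop (by positivity)
  have hlo : ∀ᶠ N : ℕ in atTop, lam / 4 * Real.log (N : ℝ) ≤ N / 20 := by
    have h1 := (Real.isLittleO_log_id_atTop.bound (show (0 : ℝ) < 1 / (5 * lam) by positivity))
    filter_upwards [tendsto_natCast_atTop_atTop.eventually h1] with N hN
    rw [id, Real.norm_eq_abs, Real.norm_eq_abs, abs_of_nonneg (Real.log_natCast_nonneg N),
      abs_of_nonneg (Nat.cast_nonneg N)] at hN
    have h2 : lam / 4 * Real.log (N : ℝ) ≤ lam / 4 * (1 / (5 * lam) * N) :=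
      mul_le_mul_of_nonneg_left hN (by positivity)
    refine h2.trans (le_of_eq ?_)
    field_simp
    ring
  filter_upwards [hev, hlog.eventually_ge_atTop 1, hlo, eventually_ge_atTop 20]
    with N hx hN1 hN2 hN20 v T hT hv
  obtain ⟨T0, hT0⟩ : ∃ T0 : ℕ, T0 = ⌈lam / 4 * Real.log (N : ℝ)⌉₊ := ⟨_, rfl⟩
  have hT0a : lam / 4 * Real.log (N : ℝ) ≤ T0 := by rw [hT0]; exact Nat.le_ceil _
  have hT0b : (T0 : ℝ) < lam / 4 * Real.log (N : ℝ) + 1 := by
    rw [hT0]; exact Nat.ceil_lt_add_one (by linarith)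
  have hT01 : 1 ≤ T0 := by
    have : (1 : ℝ) ≤ T0 := hN1.trans hT0a
    exact_mod_cast this
  have hT0j : ∀ j, 2 * T0 ≤ T j := by
    intro j
    have : (2 : ℝ) * T0 ≤ T j := by
      have := hT j
      linarith
    exact_mod_cast this
  have hT0N : 10 * T0 ≤ N := by
    have h1 : (20 : ℝ) ≤ N := by exact_mod_cast hN20
    have : (10 : ℝ) * T0 ≤ N := by linarith
    exact_mod_cast this
  set U : Fin n → Finset (Fin k → ℤ) := fun j =>
    Fintype.piFinset (fun _ : Fin k => Icc (0 : ℤ) ((T j / 2 : ℕ) : ℤ)) with hU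
  have hUc : ∀ j, (U j).card = (T j / 2 + 1) ^ k := by
    intro j
    rw [hU]
    simp only
    rw [Fintype.card_piFinset, prod_const, card_univ, Fintype.card_fin, Int.card_Icc]
    congr 1
  have hUm : ∀ u ∈ Fintype.piFinset U, ∀ j i, 0 ≤ u j i ∧ 2 * u j i ≤ T j := by
    intro u hu j i
    have h1 := Fintype.mem_piFinset.1 ((Fintype.mem_piFinset.1 hu) j) i
    rw [mem_Icc] at h1
    refine ⟨h1.1, ?_⟩
    have h2 := h1.2
    push_cast at h2
    omega
  have hJ : ∀ u ∈ Fintype.piFinset U, ∃ J : Finset (Fin n), J.Nonempty ∧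
      δ * (T0 : ℝ) ^ k ≤ ((gb κ N T0 (fun i : Fin k => ∑ j ∈ J, (v j i + u j i))).card : ℝ) := by
    intro u hu
    refine hx T0 hT0a hT0N (fun j i => v j i + u j i) fun j i => ?_
    obtain ⟨h1, h2⟩ := hUm u hu j i
    have h3 : |v j i + u j i| ≤ |v j i| + T j := by
      have h4 := abs_add_le (v j i) (u j i)
      rw [abs_of_nonneg h1] at h4
      linarith
    exact (mul_le_mul_of_nonneg_left h3 (by positivity)).trans (hv j i)
  -- a popular set
  set F : Finset (Fin n) → Finset (Fin n → Fin k → ℤ) := fun J => (Fintype.piFinset U).filter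
    (fun u => δ * (T0 : ℝ) ^ k ≤ ((gb κ N T0 (fun i : Fin k => ∑ j ∈ J, (v j i + u j i))).card : ℝ))
    with hF
  have hPi : 0 < (Fintype.piFinset U).card := by
    rw [Fintype.card_piFinset]
    apply prod_pos
    intro j _
    rw [hUc j]
    positivity
  obtain ⟨J, hJne, hJpop⟩ : ∃ J : Finset (Fin n), J.Nonempty ∧
      (Fintype.piFinset U).card ≤ 2 ^ n * (F J).card := by
    by_contra hcon
    have h1 : ∀ J : Finset (Fin n), J.Nonempty → 2 ^ n * (F J).card < (Fintype.piFinset U).card := by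
      intro J hJ1
      by_contra h2
      exact hcon ⟨J, hJ1, by omega⟩
    set 𝒥 := (univ : Finset (Finset (Fin n))).filter (fun J => J.Nonempty) with h𝒥
    have h2 : Fintype.piFinset U ⊆ 𝒥.biUnion F := by
      intro u hu
      obtain ⟨J, hJ1, hJ2⟩ := hJ u hu
      rw [mem_biUnion]
      exact ⟨J, mem_filter.2 ⟨mem_univ _, hJ1⟩, mem_filter.2 ⟨hu, hJ2⟩⟩
    have h3 : (Fintype.piFinset U).card ≤ ∑ J ∈ 𝒥, (F J).card := (card_le_card h2).trans card_biUnion_le
    have h4 : 𝒥.card ≤ 2 ^ n := by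
      refine (card_filter_le _ _).trans (le_of_eq ?_)
      rw [card_univ, Fintype.card_finset, Fintype.card_fin]
    have hne : 𝒥.Nonempty := by
      by_contra hh
      rw [not_nonempty_iff_eq_empty] at hh
      rw [hh, sum_empty] at h3
      omega
    have h5 : ∑ J ∈ 𝒥, 2 ^ n * (F J).card < ∑ _J ∈ 𝒥, (Fintype.piFinset U).card :=
      sum_lt_sum_of_nonempty hne fun J hJ1 => h1 J (mem_filter.1 hJ1).2
    rw [← mul_sum, sum_const, smul_eq_mul] at h5
    have h6 : 2 ^ n * (Fintype.piFinset U).card ≤ 2 ^ n * ∑ J ∈ 𝒥, (F J).card :=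
      Nat.mul_le_mul_left _ h3
    have h7 : 𝒥.card * (Fintype.piFinset U).card ≤ 2 ^ n * (Fintype.piFinset U).card :=
      Nat.mul_le_mul_right _ h4
    omega
  refine ⟨J, hJne, ?_⟩
  obtain ⟨m, hmJ, hmax⟩ := exists_max_image J T hJne
  set G := gb κ N (∑ j ∈ J, T j) (fun i : Fin k => ∑ j ∈ J, v j i) with hG
  have hfib := fibre U m (fun u => δ * (T0 : ℝ) ^ k ≤
    ((gb κ N T0 (fun i : Fin k => ∑ j ∈ J, (v j i + u j i))).card : ℝ))
    (3 ^ k / δ * (G.card : ℝ)) (by
      intro u hu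
      have h1 := manyGood κ δ N T0 (∑ j ∈ J, T j) hT01 hδ (U m)
        (fun i => ∑ j ∈ J, v j i + ∑ j ∈ J.erase m, u j i) (fun i => ∑ j ∈ J, v j i) (by
          intro a ha i
          have ha1 := Fintype.mem_piFinset.1 ha i
          rw [mem_Icc] at ha1
          obtain ⟨ha2, ha3⟩ := ha1
          have e1 : ∑ j ∈ J, v j i + ∑ j ∈ J.erase m, u j i + a i - ∑ j ∈ J, v j i =
            ∑ j ∈ J.erase m, u j i + a i := by ring
          have h2 : 0 ≤ ∑ j ∈ J.erase m, u j i := sum_nonneg fun j _ => (hUm u hu j i).1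
          have h3 : 2 * ∑ j ∈ J.erase m, u j i ≤ ∑ j ∈ J.erase m, (T j : ℤ) := by
            rw [mul_sum]
            exact sum_le_sum fun j _ => (hUm u hu j i).2
          have h4 : (T m : ℤ) + ∑ j ∈ J.erase m, (T j : ℤ) = ((∑ j ∈ J, T j : ℕ) : ℤ) := by
            rw [add_sum_erase J (fun j => (T j : ℤ)) hmJ]
            push_cast
            rfl
          have h5 : (0 : ℤ) ≤ ∑ j ∈ J.erase m, (T j : ℤ) := sum_nonneg fun j _ => Int.natCast_nonneg _
          have h6 : (2 * T0 : ℤ) ≤ T m := by exact_mod_cast hT0j m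
          show |∑ j ∈ J, v j i + ∑ j ∈ J.erase m, u j i + a i - ∑ j ∈ J, v j i| + (T0 : ℤ) ≤
            ((∑ j ∈ J, T j : ℕ) : ℤ)
          rw [e1, abs_of_nonneg (by linarith), ← h4]
          have h7 : 2 * a i ≤ T m := by
            push_cast at ha3
            omega
          linarith)
      refine le_trans (le_of_eq ?_) h1
      congr 1
      congr 1
      apply filter_congr
      intro a _
      have e2 : (fun i : Fin k => ∑ j ∈ J, (v j i + Function.update u m a j i)) =
          (fun i => ∑ j ∈ J, v j i + ∑ j ∈ J.erase m, u j i + a i) := by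
        funext i
        rw [sum_add_distrib, add_assoc, ← add_sum_erase J (fun j => Function.update u m a j i) hmJ]
        simp only [Function.update_self]
        rw [add_comm (a i)]
        congr 2
        apply sum_congr rfl
        intro j hj
        rw [Function.update_of_ne (ne_of_mem_erase hj)]
      rw [e2])
  have hPiR : (0 : ℝ) < ((Fintype.piFinset U).card : ℝ) := by exact_mod_cast hPi
  have hpopR : ((Fintype.piFinset U).card : ℝ) ≤ 2 ^ n * ((F J).card : ℝ) := by exact_mod_cast hJpop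
  have h1 : ((U m).card : ℝ) ≤ 2 ^ n * (3 ^ k / δ * (G.card : ℝ)) := by
    have h2 : ((Fintype.piFinset U).card : ℝ) * ((U m).card : ℝ) ≤
        2 ^ n * (3 ^ k / δ * (G.card : ℝ) * ((Fintype.piFinset U).card : ℝ)) := by
      calc ((Fintype.piFinset U).card : ℝ) * ((U m).card : ℝ) ≤
          2 ^ n * ((F J).card : ℝ) * ((U m).card : ℝ) := mul_le_mul_of_nonneg_right hpopR (by positivity)
        _ = 2 ^ n * (((F J).card : ℝ) * ((U m).card : ℝ)) := by ring
        _ ≤ _ := mul_le_mul_of_nonneg_left hfib (by positivity)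
    have h3 : ((U m).card : ℝ) * ((Fintype.piFinset U).card : ℝ) ≤
        2 ^ n * (3 ^ k / δ * (G.card : ℝ)) * ((Fintype.piFinset U).card : ℝ) := by
      calc ((U m).card : ℝ) * ((Fintype.piFinset U).card : ℝ) =
          ((Fintype.piFinset U).card : ℝ) * ((U m).card : ℝ) := by ring
        _ ≤ _ := h2
        _ = _ := by ring
    exact le_of_mul_le_mul_right h3 hPiR
  have h2 : ((∑ j ∈ J, T j : ℕ) : ℝ) ≤ (n + 1) * T m := by
    have h3 : ∑ j ∈ J, T j ≤ J.card * T m := by
      rw [← smul_eq_mul, ← sum_const]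
      exact sum_le_sum fun j hj => hmax j hj
    have h4 : J.card ≤ n := by
      have := card_le_univ J
      rwa [Fintype.card_fin] at this
    have h5 : ∑ j ∈ J, T j ≤ (n + 1) * T m := h3.trans (Nat.mul_le_mul_right _ (by omega))
    exact_mod_cast h5
  have h3 : ((∑ j ∈ J, T j : ℕ) : ℝ) / (2 * (n + 1)) ≤ ((T m / 2 + 1 : ℕ) : ℝ) := by
    rw [div_le_iff₀ (by positivity)]
    have h4 : (T m : ℝ) ≤ 2 * ((T m / 2 + 1 : ℕ) : ℝ) := by
      have : T m ≤ 2 * (T m / 2 + 1) := by omega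
      exact_mod_cast this
    have h5 : (0 : ℝ) < (n : ℝ) + 1 := by positivity
    nlinarith
  have h4 : (((∑ j ∈ J, T j : ℕ) : ℝ) / (2 * (n + 1))) ^ k ≤ ((U m).card : ℝ) := by
    rw [hUc m, Nat.cast_pow]
    exact pow_le_pow_left₀ (by positivity) h3 _
  have h5 := h4.trans h1
  rw [div_mul_eq_mul_div, div_le_iff₀ (by positivity)]
  rw [div_pow, div_le_iff₀ (by positivity)] at h5
  have e6 : (6 * ((n : ℝ) + 1)) ^ k = 3 ^ k * (2 * (n + 1)) ^ k := by
    rw [← mul_pow]; ring
  rw [e6]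
  have h6 : δ * ((∑ j ∈ J, T j : ℕ) : ℝ) ^ k ≤
      δ * (2 ^ n * (3 ^ k / δ * (G.card : ℝ)) * (2 * (n + 1)) ^ k) :=
    mul_le_mul_of_nonneg_left h5 hδ.le
  refine h6.trans (le_of_eq ?_)
  field_simp

end Pool.Agent.K6.H92.PS
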