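import Pool.Agent.K6.H92.PS.Rad

/-! All boxes at all but boundedly many scales. -/

set_option autoImplicit false

namespace Pool.Agent.K6.H92.PS

open Finset Filter Topology

theorem chain_mono {R : ℕ} {T : ℕ → ℕ} (h : ∀ i < R, 2 * T i ≤ T (i + 1)) {i j : ℕ} (hij : i ≤ j)
    (hj : j ≤ R) : T i ≤ T j := by
  induction j, hij using Nat.le_induction with
  | base => exact le_rfl
  | succ j hij ih => exact (ih (by omega)).trans (by have := h j (by omega); omega)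

theorem chain_sum {R : ℕ} {T : ℕ → ℕ} (h : ∀ i < R, 2 * T i ≤ T (i + 1)) {M : ℕ} (hM : M ≤ R) :
    ∑ i ∈ range M, T i ≤ T M := by
  induction M with
  | zero => simp
  | succ M ih =>
    rw [sum_range_succ]
    have h1 := ih (by omega)
    have h2 := h M (by omega)
    omega

theorem chain_sum' {R : ℕ} {T : ℕ → ℕ} (h : ∀ i < R, 2 * T i ≤ T (i + 1)) {M : ℕ} (hM : M ≤ R) :
    ∑ i ∈ range M, T (i + 1) ≤ 2 * T M := by
  induction M with
  | zero => simp
  | succ M ih =>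
    rw [sum_range_succ]
    have h1 := ih (by omega)
    have h2 := h M (by omega)
    omega

/-- **all boxes at most scales** -/
theorem scales (k : ℕ)
    (hrad : ∃ n : ℕ, ∃ c : ℝ, 0 < c ∧ ∀ lam : ℝ, 0 < lam → ∃ κ : ℝ, 0 < κ ∧ ∀ᶠ N : ℕ in atTop,
      ∀ (v : Fin n → Fin k → ℤ) (T : Fin n → ℕ), (∀ j, lam * Real.log N ≤ T j) →
      (∀ j i, 10 * n * (|v j i| + T j) ≤ N) →
      ∃ J : Finset (Fin n), J.Nonempty ∧ c * ((∑ j ∈ J, T j : ℕ) : ℝ) ^ k ≤
        ((gb κ N (∑ j ∈ J, T j) (fun i : Fin k => ∑ j ∈ J, v j i)).card : ℝ)) :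
    ∃ n : ℕ, ∃ c : ℝ, 0 < c ∧ ∀ lam : ℝ, 0 < lam → ∃ κ : ℝ, 0 < κ ∧ ∀ᶠ N : ℕ in atTop,
      ∀ (R : ℕ) (T : ℕ → ℕ), lam * Real.log N ≤ T 0 → (∀ i < R, 2 * T i ≤ T (i + 1)) →
      10 * n * T R ≤ N → ∃ B : Finset ℕ, B.card ≤ n ∧ ∀ i < R, i ∉ B →
        ∀ w : Fin k → ℤ, (∀ j, 16 * |w j| ≤ T (i + 1)) →
          c * (T i : ℝ) ^ k ≤ ((gb κ N (T i) w).card : ℝ) := by
  classical
  obtain ⟨n, c, hc, h⟩ := hrad
  refine ⟨n, c / 16 ^ k, by positivity, fun lam hlam => ?_⟩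
  obtain ⟨κ, hκ, hev⟩ := h (lam / 16) (by positivity)
  refine ⟨κ, hκ, ?_⟩
  have hlog : Tendsto (fun N : ℕ => lam / 16 * Real.log (N : ℝ)) atTop atTop :=
    (Real.tendsto_log_atTop.comp tendsto_natCast_atTop_atTop).const_mul_atTop (by positivity)
  filter_upwards [hev, hlog.eventually_ge_atTop 1] with N hx hN1 R T hT0 hT hTR
  set B : Finset ℕ := (range R).filter (fun i => ∃ w : Fin k → ℤ, (∀ j, 16 * |w j| ≤ T (i + 1)) ∧
    ((gb κ N (T i) w).card : ℝ) < c / 16 ^ k * (T i : ℝ) ^ k) with hB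
  refine ⟨B, ?_, fun i hi hiB w hw => ?_⟩
  · by_contra hcon
    obtain ⟨B', hB', hB'c⟩ := exists_subset_card_eq (show n ≤ B.card by omega)
    set φ := B'.orderEmbOfFin hB'c with hφ
    have hφB : ∀ j, φ j ∈ B := fun j => hB' (B'.orderEmbOfFin_mem hB'c j)
    have hφR : ∀ j, φ j < R := fun j => mem_range.1 (mem_filter.1 (hφB j)).1
    choose w hw1 hw2 using fun j => (mem_filter.1 (hφB j)).2
    have h16 : ∀ j, (16 : ℝ) ≤ T (φ j) := by
      intro j
      have h1 : T 0 ≤ T (φ j) := chain_mono hT (Nat.zero_le _) (hφR j).le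
      have h2 : (T 0 : ℝ) ≤ T (φ j) := by exact_mod_cast h1
      linarith
    have h16n : ∀ j, 16 ≤ T (φ j) := fun j => by exact_mod_cast h16 j
    obtain ⟨J, hJ, hJc⟩ := hx w (fun j => T (φ j) / 8) (by
      intro j
      have h1 : T 0 ≤ T (φ j) := chain_mono hT (Nat.zero_le _) (hφR j).le
      have h2 : (T 0 : ℝ) ≤ T (φ j) := by exact_mod_cast h1
      have h3 : (T (φ j) : ℝ) ≤ 16 * ((T (φ j) / 8 : ℕ) : ℝ) := by
        have := h16n j
        have : T (φ j) ≤ 16 * (T (φ j) / 8) := by omega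
        exact_mod_cast this
      linarith) (by
      intro j i
      have h1 := hw1 j i
      have h2 : T (φ j) ≤ T R := chain_mono hT (hφR j).le le_rfl
      have h3 : T (φ j + 1) ≤ T R := chain_mono hT (hφR j) le_rfl
      have h4 : |w j i| + ((T (φ j) / 8 : ℕ) : ℤ) ≤ T R := by
        have h3' : (T (φ j + 1) : ℤ) ≤ T R := by exact_mod_cast h3
        have h5 : ((T (φ j) / 8 : ℕ) : ℤ) * 8 ≤ T R := by
          have : T (φ j) / 8 * 8 ≤ T R := by omega
          exact_mod_cast this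
        have h6 : (0 : ℤ) ≤ T R := Int.natCast_nonneg _
        linarith
      have h5 : (10 * n * T R : ℤ) ≤ N := by exact_mod_cast hTR
      exact (mul_le_mul_of_nonneg_left h4 (by positivity)).trans h5)
    -- the largest element
    obtain ⟨m, hmJ, hmax⟩ := exists_max_image J id hJ
    have hlt : ∀ j ∈ J.erase m, φ j < φ m := by
      intro j hj
      have h1 : j ≤ m := hmax j (mem_of_mem_erase hj)
      exact φ.strictMono (lt_of_le_of_ne h1 (ne_of_mem_erase hj))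
    have hinj : Set.InjOn (fun j => φ j) (J.erase m : Set (Fin n)) := fun a _ b _ hab =>
      φ.injective hab
    have hs1 : ∑ j ∈ J.erase m, T (φ j + 1) ≤ 2 * T (φ m) := by
      rw [← sum_image (f := fun x => T (x + 1)) hinj]
      refine (sum_le_sum_of_subset (t := range (φ m)) ?_).trans (chain_sum' hT (hφR m).le)
      intro x hx'
      obtain ⟨j, hj, rfl⟩ := mem_image.1 hx'
      exact mem_range.2 (hlt j hj)
    have hs2 : ∑ j ∈ J.erase m, T (φ j) ≤ T (φ m) := by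
      rw [← sum_image (f := fun x => T x) hinj]
      refine (sum_le_sum_of_subset (t := range (φ m)) ?_).trans (chain_sum hT (hφR m).le)
      intro x hx'
      obtain ⟨j, hj, rfl⟩ := mem_image.1 hx'
      exact mem_range.2 (hlt j hj)
    have hs3 : 8 * ∑ j ∈ J, T (φ j) / 8 ≤ 2 * T (φ m) := by
      have h1 : 8 * ∑ j ∈ J, T (φ j) / 8 ≤ ∑ j ∈ J, T (φ j) := by
        rw [mul_sum]
        exact sum_le_sum fun j _ => Nat.mul_div_le _ _
      rw [← add_sum_erase J (fun j => T (φ j)) hmJ] at h1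
      omega
    have hsub : gb κ N (∑ j ∈ J, T (φ j) / 8) (fun i : Fin k => ∑ j ∈ J, w j i) ⊆
        gb κ N (T (φ m)) (w m) := by
      apply gb_sub
      intro i
      have e1 : ∑ j ∈ J, w j i - w m i = ∑ j ∈ J.erase m, w j i := by
        rw [← add_sum_erase J (fun j => w j i) hmJ]
        ring
      have h2 : |∑ j ∈ J.erase m, w j i| ≤ ∑ j ∈ J.erase m, |w j i| := abs_sum_le_sum_abs _ _
      have h3 : 16 * ∑ j ∈ J.erase m, |w j i| ≤ ∑ j ∈ J.erase m, (T (φ j + 1) : ℤ) := by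
        rw [mul_sum]
        exact sum_le_sum fun j _ => hw1 j i
      have h4 : ∑ j ∈ J.erase m, (T (φ j + 1) : ℤ) ≤ 2 * T (φ m) := by exact_mod_cast hs1
      have h5 : (8 : ℤ) * ((∑ j ∈ J, T (φ j) / 8 : ℕ) : ℤ) ≤ 2 * T (φ m) := by exact_mod_cast hs3
      show |∑ j ∈ J, w j i - w m i| + ((∑ j ∈ J, T (φ j) / 8 : ℕ) : ℤ) ≤ (T (φ m) : ℤ)
      rw [e1]
      have h6 : (0 : ℤ) ≤ T (φ m) := Int.natCast_nonneg _
      linarith
    have h1 : ((gb κ N (∑ j ∈ J, T (φ j) / 8) (fun i : Fin k => ∑ j ∈ J, w j i)).card : ℝ) ≤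
        ((gb κ N (T (φ m)) (w m)).card : ℝ) := by exact_mod_cast card_le_card hsub
    have h2 : (T (φ m) : ℝ) / 16 ≤ ((∑ j ∈ J, T (φ j) / 8 : ℕ) : ℝ) := by
      have h3 : T (φ m) / 8 ≤ ∑ j ∈ J, T (φ j) / 8 :=
        single_le_sum (f := fun j => T (φ j) / 8) (fun _ _ => Nat.zero_le _) hmJ
      have h4 : T (φ m) ≤ 16 * ∑ j ∈ J, T (φ j) / 8 := by
        have := h16n m
        omega
      have h5 : (T (φ m) : ℝ) ≤ 16 * ((∑ j ∈ J, T (φ j) / 8 : ℕ) : ℝ) := by exact_mod_cast h4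
      linarith
    have h3 : c / 16 ^ k * (T (φ m) : ℝ) ^ k ≤ c * ((∑ j ∈ J, T (φ j) / 8 : ℕ) : ℝ) ^ k := by
      have e1 : c / 16 ^ k * (T (φ m) : ℝ) ^ k = c * ((T (φ m) : ℝ) / 16) ^ k := by
        rw [div_pow]
        ring
      rw [e1]
      apply mul_le_mul_of_nonneg_left _ hc.le
      exact pow_le_pow_left₀ (by positivity) h2 _
    linarith [hw2 m]
  · by_contra hcon
    exact hiB (mem_filter.2 ⟨mem_range.2 hi, w, hw, not_le.1 hcon⟩)

end Pool.Agent.K6.H92.PS
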